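import Pool.Agent.E8helper29.Zn.Stm2

/-!
# Piece 26: Gaussian pairings
-/

set_option autoImplicit false

namespace Pool.Agent.E8helper97.ZN

open MeasureTheory ProbabilityTheory Pool.Agent.Helper649.Zono Pool.Agent.E8helper29.Zn
open scoped RealInnerProductSpace Nat NNReal Polynomial

lemma He_cont (d : ℕ) : Continuous (He d) := (HP d).continuous

section
variable {n N : ℕ} (d : ℕ) (u : Fin N → E n) (r : Fin N → ℝ)

lemma QX_cont : Continuous (QX d u r) := by
  unfold QX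
  refine continuous_finset_sum _ fun j _ => ?_
  have h1 : Continuous fun X : E n => He d ⟪u j, X⟫ := (He_cont d).comp (by fun_prop)
  exact (continuous_const.mul h1).smul continuous_const

lemma QX_inner (X w : E n) : ⟪QX d u r X, w⟫ = ∑ j, r j * He d ⟪u j, X⟫ * ⟪u j, w⟫ := by
  unfold QX
  rw [sum_inner]
  refine Finset.sum_congr rfl fun j _ => ?_
  rw [real_inner_smul_left]

variable (hu : ∀ j, ‖u j‖ = 1)
include hu

lemma QX_memLp : MemLp (QX d u r) 2 (stdGaussian (E n)) := by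
  have h1 : ∀ j ∈ Finset.univ, MemLp (fun X : E n => (r j * He d ⟪u j, X⟫) • u j) 2 (stdGaussian (E n)) := by
    intro j _
    have h2 : MemLp (fun X : E n => r j * He d ⟪u j, X⟫) 2 (stdGaussian (E n)) :=
      (memLp_He833 d (u j)).const_mul (r j)
    have h3 : Continuous fun X : E n => (r j * He d ⟪u j, X⟫) • u j :=
      (continuous_const.mul ((He_cont d).comp (by fun_prop))).smul continuous_const
    refine h2.of_le h3.aestronglyMeasurable (Filter.Eventually.of_forall fun X => ?_)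
    rw [norm_smul, hu, mul_one]
  exact memLp_finset_sum Finset.univ h1

lemma He_int (i j : Fin N) : ∫ X, He d ⟪u i, X⟫ * He d ⟪u j, X⟫ ∂(stdGaussian (E n)) =
    (d ! : ℝ) * ⟪u i, u j⟫ ^ d := by
  rw [mehler (He d) (He_cont d).measurable (memLp_He_real833 d) d (u i) (u j) (hu i) (hu j), He_sq]
  ring

lemma He_integrable (i j : Fin N) :
    Integrable (fun X => He d ⟪u i, X⟫ * He d ⟪u j, X⟫) (stdGaussian (E n)) :=
  (memLp_He833 d (u i)).integrable_mul (memLp_He833 d (u j))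

lemma part2 : ∫ X, ‖QX d u r X‖ ^ 2 ∂(stdGaussian (E n))
      = (d ! : ℝ) * ∑ i, ∑ j, r i * r j * ⟪u i, u j⟫ ^ (d + 1) := by
  have h1 : ∀ X, ‖QX d u r X‖ ^ 2 = ∑ i, ∑ j, (r i * r j * ⟪u i, u j⟫) *
      (He d ⟪u i, X⟫ * He d ⟪u j, X⟫) := by
    intro X
    rw [← real_inner_self_eq_norm_sq, QX_inner]
    refine Finset.sum_congr rfl fun i _ => ?_
    rw [real_inner_comm (QX d u r X) (u i), QX_inner, Finset.mul_sum]
    refine Finset.sum_congr rfl fun j _ => ?_
    rw [real_inner_comm (u i) (u j)]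
    ring
  simp only [h1]
  rw [integral_finset_sum _ fun i _ => integrable_finset_sum _ fun j _ =>
    (He_integrable d u hu i j).const_mul _, Finset.mul_sum]
  refine Finset.sum_congr rfl fun i _ => ?_
  rw [integral_finset_sum _ fun j _ => (He_integrable d u hu i j).const_mul _, Finset.mul_sum]
  refine Finset.sum_congr rfl fun j _ => ?_
  rw [integral_const_mul, He_int d u hu]
  ring

variable {f : ℝ → ℝ} (hf : Continuous f) (hf1 : ∀ a, |f a| ≤ 1)
include hf hf1

omit hu in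
lemma f_memLp : MemLp f 2 (gaussianReal 0 1) :=
  MemLp.of_bound hf.aestronglyMeasurable 1 (Filter.Eventually.of_forall fun a => hf1 a)

omit hu in
lemma f_integrable (z : E n) (j : Fin N) :
    Integrable (fun X => f ⟪z, X⟫ * He d ⟪u j, X⟫) (stdGaussian (E n)) := by
  have h1 : Integrable (fun X => He d ⟪u j, X⟫) (stdGaussian (E n)) :=
    (memLp_He833 d (u j)).integrable (by norm_num)
  have h2 : Continuous fun X : E n => f ⟪z, X⟫ := hf.comp (by fun_prop)
  exact h1.bdd_mul h2.aestronglyMeasurable (Filter.Eventually.of_forall fun X => hf1 _)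

lemma f_int (z : E n) (hz : ‖z‖ = 1) (j : Fin N) :
    ∫ X, f ⟪z, X⟫ * He d ⟪u j, X⟫ ∂(stdGaussian (E n)) =
      ⟪u j, z⟫ ^ d * ∫ a, f a * He d a ∂(gaussianReal 0 1) := by
  rw [mehler f hf.measurable (f_memLp hf hf1) d z (u j) hz (hu j), real_inner_comm]

omit hu in
lemma pair_eq (X z : E n) : f ⟪X, z⟫ * ⟪QX d u r X, z⟫ =
    ∑ j, (r j * ⟪u j, z⟫) * (f ⟪z, X⟫ * He d ⟪u j, X⟫) := by
  rw [QX_inner, Finset.mul_sum, real_inner_comm]
  refine Finset.sum_congr rfl fun j _ => ?_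
  ring

omit hu in
lemma pair_integrable (z : E n) :
    Integrable (fun X => f ⟪X, z⟫ * ⟪QX d u r X, z⟫) (stdGaussian (E n)) := by
  simp only [pair_eq d u r hf hf1]
  exact integrable_finset_sum _ fun j _ => (f_integrable d u hf hf1 z j).const_mul _

lemma pair_int (z : E n) (hz : ‖z‖ = 1) :
    ∫ X, f ⟪X, z⟫ * ⟪QX d u r X, z⟫ ∂(stdGaussian (E n)) =
      (∫ a, f a * He d a ∂(gaussianReal 0 1)) * ∑ j, r j * ⟪u j, z⟫ ^ (d + 1) := by
  simp only [pair_eq d u r hf hf1]
  rw [integral_finset_sum _ fun j _ => (f_integrable d u hf hf1 z j).const_mul _, Finset.mul_sum]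
  refine Finset.sum_congr rfl fun j _ => ?_
  rw [integral_const_mul, f_int d u hu hf hf1 z hz]
  ring

variable (μ₀ : Measure (E n)) [IsFiniteMeasure μ₀] (hμ : ∀ᵐ z ∂μ₀, ‖z‖ = 1)
include hμ

lemma prod_integrable :
    Integrable (fun p : E n × E n => f ⟪p.1, p.2⟫ * ⟪QX d u r p.1, p.2⟫)
      ((stdGaussian (E n)).prod μ₀) := by
  have h1 : Integrable (fun X => ‖QX d u r X‖) (stdGaussian (E n)) :=
    ((QX_memLp d u r hu).integrable (by norm_num)).norm
  have h2 : Integrable (fun p : E n × E n => ‖QX d u r p.1‖ * (1 : ℝ)) ((stdGaussian (E n)).prod μ₀) :=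
    h1.mul_prod (integrable_const 1)
  have h3 : ∀ᵐ p ∂((stdGaussian (E n)).prod μ₀), ‖p.2‖ = 1 :=
    Measure.quasiMeasurePreserving_snd.ae hμ
  have hc : Continuous (fun p : E n × E n => f ⟪p.1, p.2⟫ * ⟪QX d u r p.1, p.2⟫) :=
    (hf.comp (by fun_prop)).mul (((QX_cont d u r).comp continuous_fst).inner continuous_snd)
  refine h2.mono hc.aestronglyMeasurable ?_
  filter_upwards [h3] with p hp
  rw [norm_mul, mul_one, norm_norm]
  calc ‖f ⟪p.1, p.2⟫‖ * ‖(⟪QX d u r p.1, p.2⟫ : ℝ)‖ ≤ 1 * (‖QX d u r p.1‖ * ‖p.2‖) :=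
        mul_le_mul (hf1 _) (norm_inner_le_norm _ _) (norm_nonneg _) zero_le_one
    _ = ‖QX d u r p.1‖ := by rw [hp]; ring

lemma pow_integrable (j : Fin N) : Integrable (fun z => ⟪u j, z⟫ ^ (d + 1)) μ₀ := by
  have hc : Continuous (fun z : E n => (⟪u j, z⟫ : ℝ) ^ (d + 1)) := by fun_prop
  refine Integrable.of_bound hc.aestronglyMeasurable 1 ?_
  filter_upwards [hμ] with z hz
  rw [norm_pow]
  refine pow_le_one₀ (norm_nonneg _) ?_
  have := norm_inner_le_norm (𝕜 := ℝ) (u j) z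
  rwa [hu, hz, mul_one] at this

lemma part4 : ∫ X, (∫ z, f ⟪X, z⟫ * ⟪QX d u r X, z⟫ ∂μ₀) ∂(stdGaussian (E n))
      = (∫ a, f a * He d a ∂(gaussianReal 0 1)) * ∑ i, r i * ∫ z, ⟪u i, z⟫ ^ (d + 1) ∂μ₀ := by
  rw [integral_integral_swap (prod_integrable d u r hu hf hf1 μ₀ hμ)]
  have h1 : ∀ᵐ z ∂μ₀, ∫ X, f ⟪X, z⟫ * ⟪QX d u r X, z⟫ ∂(stdGaussian (E n)) =
      (∫ a, f a * He d a ∂(gaussianReal 0 1)) * ∑ j, r j * ⟪u j, z⟫ ^ (d + 1) := by
    filter_upwards [hμ] with z hz
    exact pair_int d u r hu hf hf1 z hz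
  rw [integral_congr_ae h1, integral_const_mul,
    integral_finset_sum _ fun j _ => (pow_integrable d u hu hf hf1 μ₀ hμ j).const_mul _]
  congr 1
  refine Finset.sum_congr rfl fun j _ => ?_
  rw [integral_const_mul]

end

theorem p26 : Stm26 := by
  intro n N d u r f μ₀ hu hf hf1 hfin hμ
  have h5 : Integrable (fun X => ∑ i, r i * (f ⟪X, u i⟫ * ⟪QX d u r X, u i⟫)) (stdGaussian (E n)) :=
    integrable_finset_sum _ fun i _ => (pair_integrable d u r hf hf1 (u i)).const_mul _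
  refine ⟨(QX_memLp d u r hu).norm, part2 d u r hu, ?_, part4 d u r hu hf hf1 μ₀ hμ, h5,
    (prod_integrable d u r hu hf hf1 μ₀ hμ).integral_prod_left⟩
  rw [integral_finset_sum _ fun i _ => (pair_integrable d u r hf hf1 (u i)).const_mul _,
    Finset.mul_sum]
  refine Finset.sum_congr rfl fun i _ => ?_
  rw [integral_const_mul, pair_int d u r hu hf hf1 (u i) (hu i), Finset.mul_sum, Finset.mul_sum,
    Finset.mul_sum]
  refine Finset.sum_congr rfl fun j _ => ?_
  rw [real_inner_comm (u j) (u i)]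
  ring

end Pool.Agent.E8helper97.ZN
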